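import Pool.Agent.Helper62.IX.Stm
import Pool.Agent.Helper90.GX.Irr

/-!
# IX, I7: the case `2 ρ_l = m`
-/

set_option autoImplicit false
set_option linter.unusedSectionVars false

open Polynomial Matrix Finset

namespace Pool.Agent.Helper59.IX

open Pool.Agent.Helper62.BM Pool.Agent.Helper62.BW Pool.Agent.Helper62.BX Pool.Agent.Helper62.CX
open Pool.Agent.Helper62.GX Pool.Agent.Helper62.HX Pool.Agent.Helper62.JX Pool.Agent.Helper62.IX
open Pool.Agent.Helper90.GX (dt_prod)

section root

variable {E : Type} [Field E] [CharZero E]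

/-- Existence of `U ^ (- 1 / m)` modulo powers of `X`. -/
lemma exists_root (m : ℕ) (hm : 1 ≤ m) (U : E[X]) (hU : U.coeff 0 = 1) (N : ℕ) :
    ∃ T : E[X], T.coeff 0 = 1 ∧ X ^ (N + 1) ∣ T ^ m * U - 1 := by
  induction N with
  | zero =>
    refine ⟨1, by simp, ?_⟩
    rw [zero_add, pow_one, X_dvd_iff]
    simp [hU]
  | succ N ih =>
    obtain ⟨T, hT0, Q, hQ⟩ := ih
    have hmE : (m : E) ≠ 0 := by
      have : m ≠ 0 := by omega
      exact_mod_cast this
    refine ⟨T + Polynomial.C (-(Q.coeff 0) / m) * X ^ (N + 1), ?_, ?_⟩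
    · simp [hT0]
    · set c : E := -(Q.coeff 0) / m with hc
      obtain ⟨R, hR⟩ : ∃ R : E[X], (T + Polynomial.C c * X ^ (N + 1)) ^ m =
          T ^ m + (m : E[X]) * T ^ (m - 1) * (Polynomial.C c * X ^ (N + 1)) +
            R * (Polynomial.C c * X ^ (N + 1)) ^ 2 := by
        have h := (Polynomial.powAddExpansion T (Polynomial.C c * X ^ (N + 1)) m)
        exact ⟨h.1, h.2⟩
      rw [hR]
      have e1 : (T ^ m + (m : E[X]) * T ^ (m - 1) * (Polynomial.C c * X ^ (N + 1)) +
          R * (Polynomial.C c * X ^ (N + 1)) ^ 2) * U - 1 =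
          X ^ (N + 1) * (Q + (m : E[X]) * T ^ (m - 1) * Polynomial.C c * U +
            R * Polynomial.C c ^ 2 * X ^ (N + 1) * U) := by
        linear_combination hQ
      rw [e1, pow_succ X (N + 1)]
      refine mul_dvd_mul_left _ ?_
      rw [X_dvd_iff]
      have hz : ((X : E[X]) ^ (N + 1)).coeff 0 = 0 := by simp
      simp only [coeff_add, mul_coeff_zero, coeff_C_zero, hU, hz]
      have hT' : (T ^ (m - 1)).coeff 0 = 1 := by
        rw [coeff_zero_eq_eval_zero, eval_pow, ← coeff_zero_eq_eval_zero, hT0, one_pow]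
      rw [hT']
      have hmc : ((m : E[X])).coeff 0 = m := by
        rw [← Polynomial.C_eq_natCast, coeff_C_zero]
      rw [hmc, hc]
      field_simp
      ring

/-- Roots of one with the constant coefficient one. -/
lemma root_unique (r : ℕ) (hr : 1 ≤ r) (Y : E[X]) (hY : Y.coeff 0 = 1) (N : ℕ)
    (h : X ^ N ∣ Y ^ r - 1) : X ^ N ∣ Y - 1 := by
  have e : Y ^ r - 1 = (∑ i ∈ range r, Y ^ i) * (Y - 1) := (geom_sum_mul Y r).symm
  rw [e] at h
  have hc : IsCoprime (X ^ N : E[X]) (∑ i ∈ range r, Y ^ i) := by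
    refine IsCoprime.pow_left ?_
    rw [irreducible_X.coprime_iff_not_dvd, X_dvd_iff, finsetSum_coeff]
    have : ∀ i ∈ range r, (Y ^ i).coeff 0 = 1 := by
      intro i _
      rw [coeff_zero_eq_eval_zero, eval_pow, ← coeff_zero_eq_eval_zero, hY, one_pow]
    rw [Finset.sum_congr rfl this]
    simp
    omega
  exact hc.dvd_of_dvd_mul_left h

end root

lemma reflect_prod {R : Type} [CommRing R] {ι : Type} [DecidableEq ι] (s : Finset ι) (nd : ι → ℕ)
    (a : ι → R[X]) (h : ∀ l ∈ s, (a l).natDegree ≤ nd l) :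
    (∏ l ∈ s, a l).natDegree ≤ ∑ l ∈ s, nd l ∧
      reflect (∑ l ∈ s, nd l) (∏ l ∈ s, a l) = ∏ l ∈ s, reflect (nd l) (a l) := by
  induction s using Finset.induction_on with
  | empty =>
    refine ⟨by simp, ?_⟩
    rw [Finset.prod_empty, Finset.prod_empty, Finset.sum_empty, reflect_one, pow_zero]
  | insert i s hi ih =>
    obtain ⟨h1, h2⟩ := ih fun l hl => h l (Finset.mem_insert_of_mem hl)
    have h3 := h i (Finset.mem_insert_self i s)
    rw [Finset.prod_insert hi, Finset.sum_insert hi, Finset.prod_insert hi, ← h2]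
    exact ⟨natDegree_mul_le.trans (add_le_add h3 h1), reflect_mul _ _ h3 h1⟩

section field

variable {E : Type} [Field E] [CharZero E]

/-- The residue functional. -/
lemma res_apply (N c : ℕ) (T u : E[X]) :
    (∑ l ∈ range N, res c T l • lcoeff E l) u = ∑ l ∈ range N, res c T l * u.coeff l := by
  rw [LinearMap.sum_apply]
  rfl

/-- `T G̃ ≡ 1`. -/
lemma T_mul_G (g r : ℕ) (hr : 1 ≤ r) (G H T : E[X]) (hG : G.Monic) (hGd : G.natDegree = g + 1)
    (hH : H.natDegree ≤ g) (hT0 : T.coeff 0 = 1)
    (hT : X ^ (2 * g + 2) ∣ T ^ (2 * r) * reflect (2 * g + 2) (G ^ 2 + H) ^ r - 1) :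
    X ^ (g + 1) ∣ T * reflect (g + 1) G - 1 := by
  set F := reflect (2 * g + 2) (G ^ 2 + H) with hF
  set G' := reflect (g + 1) G with hG'
  have hG0 : G'.coeff 0 = 1 := by
    rw [hG', coeff_reflect, revAt_le (Nat.zero_le _), Nat.sub_zero, ← hGd]
    exact hG.coeff_natDegree
  have hFG : F = G' ^ 2 + reflect (2 * g + 2) H := by
    rw [hF, reflect_add, show 2 * g + 2 = (g + 1) + (g + 1) by ring, pow_two, pow_two,
      reflect_mul _ _ hGd.le hGd.le]
  have hH' : X ^ (g + 1) ∣ reflect (2 * g + 2) H := by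
    rw [X_pow_dvd_iff]
    intro d hd
    rw [coeff_reflect, revAt_le (by omega)]
    exact coeff_eq_zero_of_natDegree_lt (by omega)
  have hF0 : F.coeff 0 = 1 := by
    rw [hFG, coeff_add, pow_two, mul_coeff_zero, hG0]
    have := (X_pow_dvd_iff.1 hH') 0 (by omega)
    rw [this]
    ring
  have h1 : X ^ (2 * g + 2) ∣ T ^ 2 * F - 1 := by
    refine root_unique r hr _ ?_ _ ?_
    · rw [mul_coeff_zero, hF0, pow_two, mul_coeff_zero, hT0]
      ring
    · rw [mul_pow, ← pow_mul]
      exact hT
  have h2 : X ^ (g + 1) ∣ T ^ 2 * F - 1 := (pow_dvd_pow X (by omega)).trans h1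
  have h3 : X ^ (g + 1) ∣ (T * G') ^ 2 - 1 := by
    have e : (T * G') ^ 2 - 1 = (T ^ 2 * F - 1) - T ^ 2 * reflect (2 * g + 2) H := by
      rw [hFG]
      ring
    rw [e]
    exact dvd_sub h2 (Dvd.dvd.mul_left hH' _)
  refine root_unique 2 (by norm_num) _ ?_ _ h3
  rw [mul_coeff_zero, hT0, hG0, one_mul]

/-- The kernel of the residue. -/
lemma VI_eq (g : ℕ) (hg : 1 ≤ g) (G T : E[X]) (hG : G.Monic) (hGd : G.natDegree = g + 1)
    (hT0 : T.coeff 0 = 1) (hT : X ^ (g + 1) ∣ T * reflect (g + 1) G - 1) :
    VI (2 * g + 1) g T = Submodule.span E (Set.range (bE g G)) := by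
  have hlow : ∀ i, i < g → (X ^ i : E[X]) ∈ VI (2 * g + 1) g T := by
    intro i hi
    refine ⟨?_, ?_⟩
    · rw [SetLike.mem_coe, mem_degreeLT]
      refine lt_of_le_of_lt (degree_X_pow_le _) ?_
      exact_mod_cast (by omega : i < 2 * g + 1)
    · rw [SetLike.mem_coe, LinearMap.mem_ker, res_apply]
      refine Finset.sum_eq_zero fun l _ => ?_
      rw [coeff_X_pow]
      by_cases h : l = i
      · rw [res, if_pos (by omega), zero_mul]
      · rw [if_neg h, mul_zero]
  have hhi : ∀ j, j < g → (X ^ j * G : E[X]) ∈ VI (2 * g + 1) g T := by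
    intro j hj
    refine ⟨?_, ?_⟩
    · rw [SetLike.mem_coe, mem_degreeLT]
      refine lt_of_le_of_lt degree_le_natDegree ?_
      have h1 : (X ^ j * G : E[X]).natDegree ≤ j + (g + 1) := by
        refine natDegree_mul_le.trans ?_
        rw [hGd]
        exact Nat.add_le_add_right (natDegree_X_pow_le j) _
      exact_mod_cast (by omega : (X ^ j * G : E[X]).natDegree < 2 * g + 1)
    · rw [SetLike.mem_coe, LinearMap.mem_ker, res_apply]
      have h1 := (X_pow_dvd_iff.1 hT) (j + 1) (by omega)
      rw [coeff_sub, coeff_one, if_neg (by omega), sub_zero, coeff_mul] at h1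
      rw [Finset.Nat.sum_antidiagonal_eq_sum_range_succ_mk] at h1
      -- `h1 : ∑ k in range (j + 2), T_k * G'_(j + 1 - k) = 0`
      rw [← h1]
      have e1 : ∑ l ∈ range (2 * g + 1), res g T l * (X ^ j * G).coeff l =
          ∑ l ∈ range (j + 2), res g T (g + l) * (X ^ j * G).coeff (g + l) := by
        rw [← Finset.sum_subset (s₁ := (range (j + 2)).map (addLeftEmbedding g))]
        · rw [Finset.sum_map]
          rfl
        · intro l hl
          rw [Finset.mem_map] at hl
          obtain ⟨k, hk, rfl⟩ := hl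
          rw [Finset.mem_range] at hk ⊢
          rw [addLeftEmbedding_apply]
          omega
        · intro l hl hl'
          by_cases h2 : l < g
          · rw [res, if_pos h2, zero_mul]
          · rw [coeff_eq_zero_of_natDegree_lt, mul_zero]
            have h3 : (X ^ j * G : E[X]).natDegree ≤ j + (g + 1) := by
              refine natDegree_mul_le.trans ?_
              rw [hGd]
              exact Nat.add_le_add_right (natDegree_X_pow_le j) _
            by_contra h4
            refine hl' ?_
            rw [Finset.mem_map]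
            refine ⟨l - g, ?_, ?_⟩
            · rw [Finset.mem_range]
              omega
            · rw [addLeftEmbedding_apply]
              omega
      rw [e1]
      refine Finset.sum_congr rfl fun l hl => ?_
      rw [Finset.mem_range] at hl
      rw [res, if_neg (by omega), Nat.add_sub_cancel_left]
      simp only [coeff_reflect]
      rw [revAt_le (by omega), coeff_X_pow_mul']
      by_cases h2 : j ≤ g + l
      · rw [if_pos h2]
        congr 2
        omega
      · exact absurd (by omega) h2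
  refine le_antisymm ?_ ?_
  · intro u hu
    -- division by `G`
    have hsp : ∀ i, i < g → (X ^ i : E[X]) ∈ Submodule.span E (Set.range (bE g G)) := by
      intro i hi
      refine Submodule.subset_span ⟨⟨i, by omega⟩, ?_⟩
      simp only [bE]
      rw [if_pos hi]
    have hsp2 : ∀ j, j < g → (X ^ j * G : E[X]) ∈ Submodule.span E (Set.range (bE g G)) := by
      intro j hj
      refine Submodule.subset_span ⟨⟨g + j, by omega⟩, ?_⟩
      simp only [bE]
      rw [if_neg (by omega), Nat.add_sub_cancel_left]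
    have hud : u.natDegree ≤ 2 * g := by
      have h1 := hu.1
      rw [SetLike.mem_coe, mem_degreeLT] at h1
      by_cases h0 : u = 0
      · rw [h0, natDegree_zero]
        omega
      · have := (natDegree_lt_iff_degree_lt h0).2 h1
        omega
    have hdiv := modByMonic_add_div u G
    have hrd : (u %ₘ G).natDegree < g + 1 := by
      rw [← hGd]
      refine natDegree_modByMonic_lt u hG ?_
      intro h1
      rw [h1, natDegree_one] at hGd
      omega
    have hqd : (u /ₘ G).natDegree < g := by
      rw [natDegree_divByMonic u hG, hGd]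
      omega
    have hq : G * (u /ₘ G) ∈ Submodule.span E (Set.range (bE g G)) ⊓ VI (2 * g + 1) g T := by
      rw [as_sum_range' (u /ₘ G) g hqd, Finset.mul_sum]
      refine Submodule.sum_mem _ fun j hj => ?_
      rw [Finset.mem_range] at hj
      have e : G * (monomial j) ((u /ₘ G).coeff j) = (u /ₘ G).coeff j • (X ^ j * G) := by
        rw [← C_mul_X_pow_eq_monomial, smul_eq_C_mul]
        ring
      rw [e]
      exact ⟨Submodule.smul_mem _ _ (hsp2 j hj), Submodule.smul_mem _ _ (hhi j hj)⟩
    have hr : u %ₘ G = Polynomial.C ((u %ₘ G).coeff g) * X ^ g +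
        ∑ i ∈ range g, (u %ₘ G).coeff i • (X ^ i : E[X]) := by
      conv_lhs => rw [as_sum_range' (u %ₘ G) (g + 1) hrd, Finset.sum_range_succ]
      rw [add_comm, C_mul_X_pow_eq_monomial]
      congr 1
      refine Finset.sum_congr rfl fun i _ => ?_
      rw [← C_mul_X_pow_eq_monomial, smul_eq_C_mul]
    have hlowsum : ∑ i ∈ range g, (u %ₘ G).coeff i • (X ^ i : E[X]) ∈
        Submodule.span E (Set.range (bE g G)) ⊓ VI (2 * g + 1) g T := by
      refine Submodule.sum_mem _ fun i hi => ?_
      rw [Finset.mem_range] at hi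
      exact ⟨Submodule.smul_mem _ _ (hsp i hi), Submodule.smul_mem _ _ (hlow i hi)⟩
    have hc : (u %ₘ G).coeff g = 0 := by
      have h1 : Polynomial.C ((u %ₘ G).coeff g) * X ^ g ∈ VI (2 * g + 1) g T := by
        have e : Polynomial.C ((u %ₘ G).coeff g) * X ^ g =
            u - G * (u /ₘ G) - ∑ i ∈ range g, (u %ₘ G).coeff i • (X ^ i : E[X]) := by
          linear_combination hdiv - hr
        rw [e]
        exact Submodule.sub_mem _ (Submodule.sub_mem _ hu hq.2) hlowsum.2
      have h2 := h1.2
      rw [SetLike.mem_coe, LinearMap.mem_ker, res_apply, Finset.sum_eq_single g] at h2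
      · rw [res, if_neg (lt_irrefl g), Nat.sub_self, hT0, one_mul, coeff_C_mul, coeff_X_pow,
          if_pos rfl, mul_one] at h2
        exact h2
      · intro b _ hb
        rw [coeff_C_mul, coeff_X_pow, if_neg hb, mul_zero, mul_zero]
      · intro hb
        rw [Finset.mem_range] at hb
        omega
    have e : u = G * (u /ₘ G) + ∑ i ∈ range g, (u %ₘ G).coeff i • (X ^ i : E[X]) := by
      rw [hc, C_0, zero_mul, zero_add] at hr
      rw [← hr, add_comm, hdiv]
    rw [e]
    exact Submodule.add_mem _ hq.1 hlowsum.1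
  · rw [Submodule.span_le]
    rintro _ ⟨l, rfl⟩
    by_cases h : (l : ℕ) < g
    · simp only [bE]
      rw [if_pos h]
      exact hlow l h
    · simp only [bE]
      rw [if_neg h]
      exact hhi _ (by have := l.isLt; omega)

end field

/-- I7. -/
theorem i_Half : I_Half := by
  intro ι _ _ k _ _ m g ρ nd hm hρ hg hnd a hgen G H hG hGd hHd hprod hI E _ _ _ δ hδ W hW hst
  have hchar : CharZero E := charZero_of_injective_ringHom (algebraMap (KX k) E).injective
  set θ : k[X] →+* E := (algebraMap (KX k) E).comp (Helper62.BM.ι k) with hθ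
  -- the exponent
  obtain ⟨l₀⟩ : Nonempty ι := by
    by_contra h
    rw [not_nonempty_iff] at h
    rw [Finset.univ_eq_empty, Finset.sum_empty] at hnd
    omega
  obtain ⟨r, hr⟩ : ∃ r, m = 2 * r := ⟨ρ l₀, (hρ l₀).symm⟩
  have hρr : ∀ l, ρ l = r := fun l => by have := hρ l; omega
  -- the reflected product
  have hdeg : ∀ l ∈ (univ : Finset ι), ((a l).map θ).natDegree ≤ nd l := fun l _ =>
    natDegree_map_le.trans (hgen.1 l).2.le
  have hrefl := (reflect_prod univ nd (fun l => (a l).map θ) hdeg).2
  have hFm : ∏ l, (a l).map θ = (G.map θ) ^ 2 + H.map θ := by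
    rw [← Polynomial.map_prod, hprod, Polynomial.map_add, Polynomial.map_pow]
  rw [← hnd, hFm] at hrefl
  have hGm : (G.map θ).Monic := hG.map θ
  have hGmd : (G.map θ).natDegree = g + 1 := by rw [hG.natDegree_map, hGd]
  have hHmd : (H.map θ).natDegree ≤ g := natDegree_map_le.trans hHd
  set U : E[X] := reflect (2 * g + 2) ((G.map θ) ^ 2 + H.map θ) with hU
  have hU0 : U.coeff 0 = 1 := by
    rw [hU, coeff_reflect, revAt_le (Nat.zero_le _), Nat.sub_zero, ← hFm]
    have h1 : (∏ l, (a l).map θ).Monic := monic_prod_of_monic _ _ fun l _ => (hgen.1 l).1.map θ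
    have h2 : (∏ l, (a l).map θ).natDegree = 2 * g + 2 := by
      rw [natDegree_prod_of_monic _ _ fun l _ => (hgen.1 l).1.map θ, hnd]
      exact Finset.sum_congr rfl fun l _ => by rw [(hgen.1 l).1.natDegree_map, (hgen.1 l).2]
    rw [← h2]
    exact h1.coeff_natDegree
  have hUr : (U ^ r).coeff 0 = 1 := by
    rw [coeff_zero_eq_eval_zero, eval_pow, ← coeff_zero_eq_eval_zero, hU0, one_pow]
  obtain ⟨T, hT0, hT⟩ := exists_root (2 * r) (by omega) (U ^ r) hUr (2 * g + 1)
  have hroot : RootT m (2 * g + 1) ρ nd (fun l => (a l).map θ) T := by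
    refine ⟨hT0, ?_⟩
    have e : ∏ l, reflect (nd l) ((a l).map θ) ^ ρ l = U ^ r := by
      rw [hrefl, ← Finset.prod_pow]
      exact Finset.prod_congr rfl fun l _ => by rw [hρr l]
    rw [e, hr]
    exact hT
  have hTG := T_mul_G g r (by omega) (G.map θ) (H.map θ) T hGm hGmd hHmd hT0 hT
  have hVI := VI_eq g hg (G.map θ) T hGm hGmd hT0 hTG
  have hmE : (m : E[X]) ≠ 0 := by
    rw [← Polynomial.C_eq_natCast]
    refine C_ne_zero.2 ?_
    have : m ≠ 0 := by omega
    exact_mod_cast this
  have gen : ∀ a' : ι → k[X][X], 2 * LamG ρ a a' =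
      (m : k[X][X]) * ∑ l, a' l * ∏ j ∈ univ.erase l, a j := by
    intro a'
    unfold LamG
    rw [Finset.mul_sum, Finset.mul_sum]
    refine Finset.sum_congr rfl fun l _ => ?_
    have : (m : k[X][X]) = 2 * (ρ l : k[X][X]) := by
      rw [← hρ l]
      push_cast
      ring
    rw [this]
    ring
  have e1 : 2 * (LamG ρ a (fun l => derivative (a l))).map θ =
      (m : E[X]) * derivative ((∏ l, a l).map θ) := by
    have h3 := congrArg (fun q => Polynomial.map θ q) (gen (fun l => derivative (a l)))
    simp only [Polynomial.map_mul, Polynomial.map_natCast, Polynomial.map_ofNat] at h3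
    have h4 : ∑ l, derivative (a l) * ∏ j ∈ univ.erase l, a j = derivative (∏ l, a l) := by
      rw [derivative_prod_finset]
      exact Finset.sum_congr rfl fun l _ => mul_comm _ _
    rw [h3, h4, derivative_map]
  have e2 : 2 * (LamG ρ a (fun l => dt (a l))).map θ =
      (m : E[X]) * (dt (∏ l, a l)).map θ := by
    have h3 := congrArg (fun q => Polynomial.map θ q) (gen (fun l => dt (a l)))
    simp only [Polynomial.map_mul, Polynomial.map_natCast, Polynomial.map_ofNat] at h3
    rw [h3, dt_prod]
  have key := hI E δ hδ T hroot W (by rw [hVI]; exact hW) ?_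
  · rw [hVI] at key
    exact key
  · intro u hu P S hP hS h1
    have h2 : 2 * P * (G ^ 2 + H).map θ + S * derivative ((G ^ 2 + H).map θ) =
        u * (dt (G ^ 2 + H)).map θ := by
      rw [← hprod]
      refine mul_left_cancel₀ hmE ?_
      linear_combination 2 * h1 - S * e1 + u * e2
    have h2P : (2 * P).natDegree ≤ 2 * g := by
      have : (2 : E[X]) * P = Polynomial.C 2 * P := rfl
      rw [this]
      have := natDegree_C_mul_le (2 : E) P
      omega
    have h3 := hst u hu (2 * P) S h2P hS h2
    have e3 : Polynomial.C (2 : E)⁻¹ * (2 * P) = P := by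
      have : (2 : E[X]) * P = Polynomial.C 2 * P := rfl
      rw [this, ← mul_assoc, ← C_mul, inv_mul_cancel₀ (two_ne_zero), C_1, one_mul]
    rw [e3] at h3
    exact h3

end Pool.Agent.Helper59.IX
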